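import Pool.Agent.MBX.Stmts
import Pool.Agent.Helper68_Pauli.FockRep
import Pool.Agent.Helper68_Pauli.Pol

/-!
# MBX, row COR: exponents of bounds uniform in the volume
-/

set_option autoImplicit false

open MeasureTheory Complex ProbabilityTheory

namespace Pool.Agent.MBX.H94

open Pool.Agent.Helper49_Pauli
open Pool.Agent.MBX

theorem grow {c C s t M : ℝ} (hc : 0 < c) (hst : s < t) :
    ∃ cut : ℝ, M ≤ cut ∧ 1 ≤ cut ∧ C * cut ^ s < c * cut ^ t := by
  have ht : Filter.Tendsto (fun x : ℝ => x ^ (t - s)) Filter.atTop Filter.atTop :=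
    tendsto_rpow_atTop (by linarith)
  have he := ht.eventually_gt_atTop (C / c)
  obtain ⟨cut, h1, h2⟩ := (he.and (Filter.eventually_ge_atTop (max M 1))).exists
  refine ⟨cut, le_trans (le_max_left _ _) h2, le_trans (le_max_right _ _) h2, ?_⟩
  have hpos : 0 < cut := lt_of_lt_of_le one_pos (le_trans (le_max_right _ _) h2)
  have e : cut ^ t = cut ^ s * cut ^ (t - s) := by
    rw [← Real.rpow_add hpos]
    congr 1
    ring
  rw [e]
  have h5 : C < c * cut ^ (t - s) := by
    rw [div_lt_iff₀ hc] at h1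
    linarith
  have h6 : 0 < cut ^ s := Real.rpow_pos_of_pos hpos _
  calc C * cut ^ s < (c * cut ^ (t - s)) * cut ^ s := by gcongr
    _ = _ := by ring

theorem box {cut : ℝ} (h : 1 ≤ cut) :
    0 < 7 / cut ∧ 7 / cut * cut = 7 ∧ 2 * Real.pi < 7 / cut * cut := by
  have hpos : 0 < cut := lt_of_lt_of_le one_pos h
  have e : 7 / cut * cut = 7 := div_mul_cancel₀ _ hpos.ne'
  refine ⟨by positivity, e, ?_⟩
  rw [e]
  have := Real.pi_lt_d2
  linarith

theorem cor (hF : FinStmt) : CorStmt := by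
  intro alpha ha gam
  obtain ⟨c, C, p, hc, hC, hFin⟩ := hF alpha ha
  constructor
  · rintro ⟨c', cut₀, hc', h⟩
    by_contra hg
    push Not at hg
    obtain ⟨cut, h1, h2, h3⟩ := grow (C := C * 7 ^ p) (M := cut₀) hc' hg
    obtain ⟨hL, hLc, hpi⟩ := box h2
    obtain ⟨P⟩ := Pool.Agent.Helper49_Pauli.pol (7 / cut) hL
    obtain ⟨D, i1, i2, F, hcy⟩ := Pool.Agent.Helper49_Pauli.fockRep (Mode cut (7 / cut))
    have h4 := h cut (7 / cut) h1 hL hpi P D F hcy
    have h5 := (hFin cut (7 / cut) h2 hL hpi P D F hcy).2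
    rw [hLc] at h5
    linarith
  · rintro ⟨C', cut₀, hC', h⟩
    by_contra hg
    push Not at hg
    have hc7 : 0 < c / 7 ^ p := by positivity
    obtain ⟨cut, h1, h2, h3⟩ := grow (C := C') (M := cut₀) hc7 hg
    obtain ⟨hL, hLc, hpi⟩ := box h2
    obtain ⟨P⟩ := Pool.Agent.Helper49_Pauli.pol (7 / cut) hL
    obtain ⟨D, i1, i2, F, hcy⟩ := Pool.Agent.Helper49_Pauli.fockRep (Mode cut (7 / cut))
    have h4 := h cut (7 / cut) h1 hL hpi P D F hcy
    have h5 := (hFin cut (7 / cut) h2 hL hpi P D F hcy).1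
    rw [hLc] at h5
    linarith

end Pool.Agent.MBX.H94
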